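import Mathlib
import Pool.Agent.H990R2.SF.SymSimple

/-!
Forest half (Q2) of the weighted negative correlation problem: all pairs of edges of complete
graphs, all pairs that belong to a symmetric quadruple of a weighted graph, and a four-point
inequality for every weighted graph.
-/

namespace Pool.Agent.Results.MP_ec1f6a_co.CompleteGraphs

open Finset

open Classical in
/-- `M G p X` is the sum of `∏ g ∈ F, p g` over all sets `F ⊇ X` of edges of `G` such that
`(V, F)` has no cycle. -/
noncomputable def M {V : Type*} [Fintype V] (G : SimpleGraph V) (p : Sym2 V → ℝ)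
    (X : Finset (Sym2 V)) : ℝ :=
  ∑ F ∈ G.edgeFinset.powerset with
    X ⊆ F ∧ (SimpleGraph.fromEdgeSet (F : Set (Sym2 V))).IsAcyclic, ∏ g ∈ F, p g

open Classical in
/-- `N G p P` is the sum of `∏ g ∈ F, p g` over all sets `F` of edges of `G`, disjoint from `P`,
such that `(V, F ∪ P)` has no cycle. The pairs in `P` need not be edges of `G`. -/
noncomputable def N {V : Type*} [Fintype V] (G : SimpleGraph V) (p : Sym2 V → ℝ)
    (P : Finset (Sym2 V)) : ℝ :=
  ∑ F ∈ G.edgeFinset.powerset with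
    Disjoint F P ∧ (SimpleGraph.fromEdgeSet ((F ∪ P : Finset (Sym2 V)) : Set (Sym2 V))).IsAcyclic,
    ∏ g ∈ F, p g

lemma M_eq {V : Type*} [Fintype V] [DecidableEq V] (G : SimpleGraph V) (p : Sym2 V → ℝ)
    (X : Finset (Sym2 V)) : M G p X = (∏ g ∈ X, p g) * H990SF.sumForest G p X := by
  classical
  unfold M H990SF.sumForest
  rw [Finset.mul_sum]
  refine Finset.sum_congr ?_ fun F hF => ?_
  · ext F; simp only [Finset.mem_filter]
  · rw [Finset.mem_filter] at hF
    rw [mul_comm]
    have h := Finset.prod_sdiff (f := p) hF.2.1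
    convert h.symm using 3

lemma N_eq {V : Type*} [Fintype V] [DecidableEq V] (G : SimpleGraph V) (p : Sym2 V → ℝ)
    (P : Finset (Sym2 V)) : N G p P = H990SF.virtForest G p P := by
  classical
  unfold N H990SF.virtForest
  refine Finset.sum_congr ?_ fun F hF => rfl
  ext F
  simp only [Finset.mem_filter]
  refine and_congr_right fun _ => and_congr_right fun _ => ?_
  have : ∀ A B : Finset (Sym2 V), A = B →
      ((SimpleGraph.fromEdgeSet (A : Set (Sym2 V))).IsAcyclic ↔
        (SimpleGraph.fromEdgeSet (B : Set (Sym2 V))).IsAcyclic) := by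
    rintro A B rfl; rfl
  apply this
  ext g; simp

lemma M_of_sum {V : Type*} [Fintype V] [DecidableEq V] (G : SimpleGraph V) (p : Sym2 V → ℝ)
    (e f : Sym2 V) (hef : e ≠ f) (hpef : 0 ≤ p e * p f)
    (h : H990SF.sumForest G p {e, f} * H990SF.sumForest G p ∅ ≤
      H990SF.sumForest G p {e} * H990SF.sumForest G p {f}) :
    M G p {e, f} * M G p ∅ ≤ M G p {e} * M G p {f} := by
  rw [M_eq, M_eq, M_eq, M_eq, Finset.prod_pair hef, Finset.prod_empty, Finset.prod_singleton,
    Finset.prod_singleton]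
  calc p e * p f * H990SF.sumForest G p {e, f} * (1 * H990SF.sumForest G p ∅)
      = (p e * p f) * (H990SF.sumForest G p {e, f} * H990SF.sumForest G p ∅) := by ring
    _ ≤ (p e * p f) * (H990SF.sumForest G p {e} * H990SF.sumForest G p {f}) :=
        mul_le_mul_of_nonneg_left h hpef
    _ = p e * H990SF.sumForest G p {e} * (p f * H990SF.sumForest G p {f}) := by ring

/-- (1) `M^{e,f} M ≤ M^e M^f` for every complete graph, every constant weight `c ≥ 0` and all
distinct edges `e`, `f`.

(2) `M^{ab,cd} M ≤ M^{ab} M^{cd}` in every graph with nonnegative weights that has a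
weight-preserving automorphism which fixes `a` and maps `b ↦ c ↦ d ↦ b`.

(3) For every graph with nonnegative weights and all distinct vertices `a`, `b`, `c`, `d`: the sum
of `N(e) N(f) - N(e, f) N` over the three ways `{e, f}` of pairing the four vertices is
nonnegative. -/
theorem result.{u} :
    (∀ (V : Type u) [Fintype V] [DecidableEq V] (c : ℝ), 0 ≤ c → ∀ e f : Sym2 V,
      e ∈ (⊤ : SimpleGraph V).edgeSet → f ∈ (⊤ : SimpleGraph V).edgeSet → e ≠ f →
      M (⊤ : SimpleGraph V) (fun _ => c) {e, f} * M (⊤ : SimpleGraph V) (fun _ => c) ∅ ≤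
        M (⊤ : SimpleGraph V) (fun _ => c) {e} * M (⊤ : SimpleGraph V) (fun _ => c) {f})
    ∧ (∀ (V : Type u) [Fintype V] [DecidableEq V] (G : SimpleGraph V) (p : Sym2 V → ℝ),
      (∀ g ∈ G.edgeSet, 0 ≤ p g) → ∀ τ : G ≃g G, (∀ g ∈ G.edgeSet, p (Sym2.map τ g) = p g) →
      ∀ a b c d : V, G.Adj a b → G.Adj c d → a ≠ c → a ≠ d → b ≠ c → b ≠ d →
      τ a = a → τ b = c → τ c = d → τ d = b →
      M G p {s(a, b), s(c, d)} * M G p ∅ ≤ M G p {s(a, b)} * M G p {s(c, d)})
    ∧ (∀ (V : Type u) [Fintype V] [DecidableEq V] (G : SimpleGraph V) (p : Sym2 V → ℝ),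
      (∀ g ∈ G.edgeSet, 0 ≤ p g) → ∀ a b c d : V, a ≠ b → a ≠ c → a ≠ d → b ≠ c → b ≠ d → c ≠ d →
      (N G p {s(a, b), s(c, d)} + N G p {s(a, c), s(b, d)} + N G p {s(a, d), s(b, c)}) *
        N G p ∅ ≤
      N G p {s(a, b)} * N G p {s(c, d)} + N G p {s(a, c)} * N G p {s(b, d)}
        + N G p {s(a, d)} * N G p {s(b, c)}) := by
  refine ⟨?_, ?_, ?_⟩
  · intro V _ _ c hc e f he hf hef
    exact M_of_sum ⊤ _ e f hef (mul_nonneg hc hc)
      (H990SF.complete_simple c hc e f ((⊤ : SimpleGraph V).not_isDiag_of_mem_edgeSet he)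
        ((⊤ : SimpleGraph V).not_isDiag_of_mem_edgeSet hf) hef)
  · intro V _ _ G p hp τ hτ a b c d hab hcd hac had hbc hbd ta tb tc td
    have hef : s(a, b) ≠ s(c, d) := by
      intro h
      rcases Sym2.eq_iff.1 h with ⟨e1, -⟩ | ⟨e1, -⟩
      · exact hac e1
      · exact had e1
    exact M_of_sum G p _ _ hef (mul_nonneg (hp _ hab) (hp _ hcd))
      (H990SF.sym_simple G p hp τ hτ a b c d hab.ne hac had hbc hbd hcd.ne ta tb tc td hab hcd)
  · intro V _ _ G p hp a b c d hab hac had hbc hbd hcd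
    simp only [N_eq]
    exact H990SF.four_point_simple G p hp a b c d hab hac had hbc hbd hcd

end Pool.Agent.Results.MP_ec1f6a_co.CompleteGraphs
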