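import Mathlib
import Pool.Agent.H990R2.SF.Simple

/-!
Forest half (Q2) of the weighted negative correlation problem, for all pairs of edges with a
common endpoint.
-/

namespace Pool.Agent.Results.MP_ec1f6a_co.ForestAdjacent

open Finset

open Classical in
/-- `M G p X` is the sum of `∏ g ∈ F, p g` over all sets `F ⊇ X` of edges of `G` such that
`(V, F)` has no cycle. -/
noncomputable def M {V : Type*} [Fintype V] (G : SimpleGraph V) (p : Sym2 V → ℝ)
    (X : Finset (Sym2 V)) : ℝ :=
  ∑ F ∈ G.edgeFinset.powerset with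
    X ⊆ F ∧ (SimpleGraph.fromEdgeSet (F : Set (Sym2 V))).IsAcyclic, ∏ g ∈ F, p g

lemma M_eq {V : Type*} [Fintype V] [DecidableEq V] (G : SimpleGraph V) (p : Sym2 V → ℝ)
    (X : Finset (Sym2 V)) : M G p X = (∏ g ∈ X, p g) * H990SF.sumForest G p X := by
  classical
  unfold M H990SF.sumForest
  rw [Finset.mul_sum]
  refine Finset.sum_congr ?_ fun F hF => ?_
  · ext F; simp only [Finset.mem_filter]
  · rw [Finset.mem_filter] at hF
    rw [mul_comm]
    have h := Finset.prod_sdiff (f := p) hF.2.1
    convert h.symm using 3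

/-- **The edges at a vertex are pairwise negatively correlated in every weighted random forest.**
`e ≠ f` are edges of `G` with the common endpoint `b`; the weights of the edges that do not
contain `b` are nonnegative, those of the edges at `b` may be any real numbers with
`p e * p f ≥ 0`. -/
theorem result {V : Type*} [Fintype V] [DecidableEq V] (G : SimpleGraph V) (p : Sym2 V → ℝ) (b : V)
    (hp : ∀ g ∈ G.edgeSet, b ∉ g → 0 ≤ p g) (e f : Sym2 V) (he : e ∈ G.edgeSet)
    (hf : f ∈ G.edgeSet) (hef : e ≠ f) (hbe : b ∈ e) (hbf : b ∈ f) (hpef : 0 ≤ p e * p f) :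
    M G p {e, f} * M G p ∅ ≤ M G p {e} * M G p {f} := by
  rw [M_eq, M_eq, M_eq, M_eq, Finset.prod_pair hef, Finset.prod_empty, Finset.prod_singleton,
    Finset.prod_singleton]
  have h := H990SF.star_rayleigh_simple G p b hp e f he hf hef hbe hbf
  calc p e * p f * H990SF.sumForest G p {e, f} * (1 * H990SF.sumForest G p ∅)
      = (p e * p f) * (H990SF.sumForest G p {e, f} * H990SF.sumForest G p ∅) := by ring
    _ ≤ (p e * p f) * (H990SF.sumForest G p {e} * H990SF.sumForest G p {f}) :=
        mul_le_mul_of_nonneg_left h hpef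
    _ = p e * H990SF.sumForest G p {e} * (p f * H990SF.sumForest G p {f}) := by ring

end Pool.Agent.Results.MP_ec1f6a_co.ForestAdjacent
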