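import Mathlib
import Pool.Agent.H990R2.SF.Multi

/-!
Forest half (Q2) of the weighted negative correlation problem with the constant `4/3`, for all
graphs, all nonnegative weights and all pairs of edges.
-/

namespace Pool.Agent.Results.MP_ec1f6a_co.ForestFourThirds

open Finset

open Classical in
/-- `M G p X` is the sum of `∏ g ∈ F, p g` over all sets `F ⊇ X` of edges of `G` such that
`(V, F)` has no cycle. -/
noncomputable def M {V : Type*} [Fintype V] (G : SimpleGraph V) (p : Sym2 V → ℝ)
    (X : Finset (Sym2 V)) : ℝ :=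
  ∑ F ∈ G.edgeFinset.powerset with
    X ⊆ F ∧ (SimpleGraph.fromEdgeSet (F : Set (Sym2 V))).IsAcyclic, ∏ g ∈ F, p g

lemma M_eq {V : Type*} [Fintype V] [DecidableEq V] (G : SimpleGraph V) (p : Sym2 V → ℝ)
    (X : Finset (Sym2 V)) : M G p X = (∏ g ∈ X, p g) * H990SF.sumForest G p X := by
  classical
  unfold M H990SF.sumForest
  rw [Finset.mul_sum]
  refine Finset.sum_congr ?_ fun F hF => ?_
  · ext F; simp only [Finset.mem_filter]
  · rw [Finset.mem_filter] at hF
    rw [mul_comm]
    have h := Finset.prod_sdiff (f := p) hF.2.1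
    convert h.symm using 3

/-- **`M^{e,f} M ≤ (4/3) M^e M^f` for every two distinct edges of every finite graph and all
nonnegative weights.** -/
theorem result {V : Type*} [Fintype V] [DecidableEq V] (G : SimpleGraph V) (p : Sym2 V → ℝ)
    (hp : ∀ g ∈ G.edgeSet, 0 ≤ p g) (e f : Sym2 V) (he : e ∈ G.edgeSet)
    (hf : f ∈ G.edgeSet) (hef : e ≠ f) :
    M G p {e, f} * M G p ∅ ≤ 4 / 3 * (M G p {e} * M G p {f}) := by
  classical
  rw [M_eq, M_eq, M_eq, M_eq, Finset.prod_pair hef, Finset.prod_empty, Finset.prod_singleton,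
    Finset.prod_singleton]
  have h := H990SF.four_thirds H990SF.ea H990SF.eb G.edgeFinset p
    (fun g hg => hp g (SimpleGraph.mem_edgeFinset.1 hg)) e f (SimpleGraph.mem_edgeFinset.2 he)
    (SimpleGraph.mem_edgeFinset.2 hf) hef
  rw [← H990SF.sumForest_eq, ← H990SF.sumForest_eq, ← H990SF.sumForest_eq,
    ← H990SF.sumForest_eq] at h
  have hpef : 0 ≤ p e * p f := mul_nonneg (hp e he) (hp f hf)
  have h' := mul_le_mul_of_nonneg_left h hpef
  nlinarith [h']

end Pool.Agent.Results.MP_ec1f6a_co.ForestFourThirds
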