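import Mathlib
import Pool.Agent.H990R2.SF.PWFinal

/-!
Negative correlation in complete graphs with product weights.
-/

set_option linter.unusedSectionVars false
set_option linter.unusedSimpArgs false

namespace Pool.Agent.Results.MP_ec1f6a_co.ProductWeights

open Finset

open Classical in
/-- `M G p X` is the sum of `∏ g ∈ F, p g` over all edge sets `F ⊇ X` of forests in `G`. -/
noncomputable def M {V : Type*} [Fintype V] (G : SimpleGraph V) (p : Sym2 V → ℝ)
    (X : Finset (Sym2 V)) : ℝ :=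
  ∑ F ∈ G.edgeFinset.powerset with
    X ⊆ F ∧ (SimpleGraph.fromEdgeSet (F : Set (Sym2 V))).IsAcyclic, ∏ g ∈ F, p g

lemma M_eq {V : Type*} [Fintype V] [DecidableEq V] (G : SimpleGraph V) (p : Sym2 V → ℝ)
    (X : Finset (Sym2 V)) : M G p X = (∏ g ∈ X, p g) * H990SF.sumForest G p X := by
  classical
  unfold M H990SF.sumForest
  rw [Finset.mul_sum]
  refine Finset.sum_congr ?_ fun F hF => ?_
  · ext F; simp only [Finset.mem_filter]
  · rw [Finset.mem_filter] at hF
    rw [mul_comm]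
    have h := Finset.prod_sdiff (f := p) hF.2.1
    convert h.symm using 3

lemma M_zero {V : Type*} [Fintype V] [DecidableEq V] (G : SimpleGraph V) (p : Sym2 V → ℝ)
    (X : Finset (Sym2 V)) (h : ¬ ∀ e ∈ X, e ∈ G.edgeSet) : M G p X = 0 := by
  classical
  unfold M
  apply Finset.sum_eq_zero
  intro F hF
  simp only [Finset.mem_filter, Finset.mem_powerset] at hF
  exact absurd (fun e he => SimpleGraph.mem_edgeFinset.1 (hF.1 (hF.2.1 he))) h

lemma M_nonneg {V : Type*} [Fintype V] [DecidableEq V] (G : SimpleGraph V) (p : Sym2 V → ℝ)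
    (hp : ∀ e, 0 ≤ p e) (X : Finset (Sym2 V)) : 0 ≤ M G p X := by
  classical
  unfold M
  exact Finset.sum_nonneg fun F _ => Finset.prod_nonneg fun e _ => hp e

lemma submod {V : Type*} [Fintype V] [DecidableEq V] (x : V → ℝ) (hx : ∀ v, 0 ≤ x v)
    (S T : Finset (Sym2 V)) :
    M (⊤ : SimpleGraph V) (H990SF.pw x) (S ∪ T) * M (⊤ : SimpleGraph V) (H990SF.pw x) (S ∩ T) ≤
      M (⊤ : SimpleGraph V) (H990SF.pw x) S * M (⊤ : SimpleGraph V) (H990SF.pw x) T := by
  have hnn := H990SF.pw_nonneg x hx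
  by_cases h : ∀ e ∈ S ∪ T, e ∈ (⊤ : SimpleGraph V).edgeSet
  · have hS : ∀ e ∈ S, e ∈ (⊤ : SimpleGraph V).edgeSet :=
      fun e he => h e (Finset.mem_union_left _ he)
    have hT : ∀ e ∈ T, e ∈ (⊤ : SimpleGraph V).edgeSet :=
      fun e he => h e (Finset.mem_union_right _ he)
    rw [M_eq, M_eq, M_eq, M_eq]
    have hprod := Finset.prod_union_inter (s₁ := S) (s₂ := T) (f := H990SF.pw x)
    calc (∏ g ∈ S ∪ T, H990SF.pw x g) * H990SF.sumForest ⊤ (H990SF.pw x) (S ∪ T) *
          ((∏ g ∈ S ∩ T, H990SF.pw x g) * H990SF.sumForest ⊤ (H990SF.pw x) (S ∩ T))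
        = ((∏ g ∈ S ∪ T, H990SF.pw x g) * (∏ g ∈ S ∩ T, H990SF.pw x g)) *
          (H990SF.sumForest ⊤ (H990SF.pw x) (S ∪ T) *
            H990SF.sumForest ⊤ (H990SF.pw x) (S ∩ T)) := by ring
      _ ≤ ((∏ g ∈ S ∪ T, H990SF.pw x g) * (∏ g ∈ S ∩ T, H990SF.pw x g)) *
          (H990SF.sumForest ⊤ (H990SF.pw x) S * H990SF.sumForest ⊤ (H990SF.pw x) T) := by
          apply mul_le_mul_of_nonneg_left (H990SF.product_submodular x hx S T hS hT)
          exact mul_nonneg (Finset.prod_nonneg fun e _ => hnn e)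
            (Finset.prod_nonneg fun e _ => hnn e)
      _ = (∏ g ∈ S, H990SF.pw x g) * H990SF.sumForest ⊤ (H990SF.pw x) S *
          ((∏ g ∈ T, H990SF.pw x g) * H990SF.sumForest ⊤ (H990SF.pw x) T) := by
          rw [hprod]; ring
  · rw [M_zero _ _ _ h, zero_mul]
    exact mul_nonneg (M_nonneg _ _ hnn _) (M_nonneg _ _ hnn _)

lemma pw_unique {V : Type*} [Fintype V] [DecidableEq V] (x : V → ℝ)
    (p : Sym2 V → ℝ) (hp : ∀ u v : V, p s(u, v) = x u * x v) : p = H990SF.pw x := by
  funext e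
  rw [← H990SF.ea_eb e, hp]
  unfold H990SF.pw
  rw [H990SF.ea_eb]

/-- **Complete graphs with product weights** `p(uv) = x u * x v`, `x ≥ 0`: (A) the sum over the
forests containing a set of edges is log-submodular; in particular (B) any two different edges are
negatively correlated; and (C) the probability that a random forest contains `S` is at most the
product over `e ∈ S` of the probabilities that it contains `e`. -/
theorem result.{u} (V : Type u) [Fintype V] [DecidableEq V] (x : V → ℝ) (hx : ∀ v, 0 ≤ x v)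
    (p : Sym2 V → ℝ) (hp : ∀ u v : V, p s(u, v) = x u * x v) :
    (∀ S T : Finset (Sym2 V),
      M (⊤ : SimpleGraph V) p (S ∪ T) * M (⊤ : SimpleGraph V) p (S ∩ T) ≤
        M (⊤ : SimpleGraph V) p S * M (⊤ : SimpleGraph V) p T)
    ∧ (∀ e f : Sym2 V, e ≠ f →
      M (⊤ : SimpleGraph V) p {e, f} * M (⊤ : SimpleGraph V) p ∅ ≤
        M (⊤ : SimpleGraph V) p {e} * M (⊤ : SimpleGraph V) p {f})
    ∧ (∀ S : Finset (Sym2 V),
      M (⊤ : SimpleGraph V) p S / M (⊤ : SimpleGraph V) p ∅ ≤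
        ∏ e ∈ S, M (⊤ : SimpleGraph V) p {e} / M (⊤ : SimpleGraph V) p ∅) := by
  have e := pw_unique x p hp
  subst e
  have hA := submod x hx
  have hnn := M_nonneg (⊤ : SimpleGraph V) (H990SF.pw x) (H990SF.pw_nonneg x hx)
  have hpair : ∀ (S : Finset (Sym2 V)) (e : Sym2 V), e ∉ S →
      M (⊤ : SimpleGraph V) (H990SF.pw x) (insert e S) *
        M (⊤ : SimpleGraph V) (H990SF.pw x) ∅ ≤
      M (⊤ : SimpleGraph V) (H990SF.pw x) {e} * M (⊤ : SimpleGraph V) (H990SF.pw x) S := by
    intro S e he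
    have h := hA {e} S
    have h1 : ({e} : Finset (Sym2 V)) ∩ S = ∅ := by
      rw [← Finset.disjoint_iff_inter_eq_empty]; simpa using he
    have h2 : ({e} : Finset (Sym2 V)) ∪ S = insert e S := rfl
    rwa [h1, h2] at h
  refine ⟨hA, ?_, ?_⟩
  · intro e f hef
    exact hpair {f} e (by simpa using hef)
  · intro S
    have h0 : 0 < M (⊤ : SimpleGraph V) (H990SF.pw x) ∅ := by
      rw [M_eq, H990SF.sumForest_MP x ∅ (by simp)]
      have h1 : H990SF.img (∅ : Finset (Sym2 V)) = ∅ := by unfold H990SF.img; simp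
      rw [h1, Finset.prod_empty, one_mul]
      unfold H990SF.MP
      exact H990SF.GS_pos H990SF.ea H990SF.eb _ _ (fun i _ => H990SF.pw_nonneg x hx i) ∅
        (H990SF.Good_empty _ _).1
    induction S using Finset.induction_on with
    | empty => simp [h0.ne']
    | insert e S he ih =>
      rw [Finset.prod_insert he]
      have h := hpair S e he
      calc M (⊤ : SimpleGraph V) (H990SF.pw x) (insert e S) /
            M (⊤ : SimpleGraph V) (H990SF.pw x) ∅
          ≤ M (⊤ : SimpleGraph V) (H990SF.pw x) {e} / M (⊤ : SimpleGraph V) (H990SF.pw x) ∅ *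
            (M (⊤ : SimpleGraph V) (H990SF.pw x) S / M (⊤ : SimpleGraph V) (H990SF.pw x) ∅) := by
            rw [div_mul_div_comm, div_le_div_iff₀ h0 (mul_pos h0 h0), ← mul_assoc]
            exact mul_le_mul_of_nonneg_right h h0.le
        _ ≤ _ := mul_le_mul_of_nonneg_left ih (div_nonneg (hnn _) h0.le)

end Pool.Agent.Results.MP_ec1f6a_co.ProductWeights
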